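import Pool.Agent.Q17.RR.Stm
import Pool.Agent.Q261.RB.GCB

/-!
# Job GCK of project RR (helper96, for helper17): Galois automorphisms and `Ind`
-/

set_option autoImplicit false
set_option linter.unusedSectionVars false

open scoped Classical

noncomputable section

namespace Pool.Agent.Q96.RR

open Pool.Agent.H254R3.IN hiding NN
open Pool.Agent.Q17.RR

theorem exists_expo (s : ℂ ≃+* ℂ) (n : ℕ) (hn : 0 < n) :
    ∃ k : ℕ, Nat.Coprime k n ∧ ∀ ζ : ℂ, ζ ^ n = 1 → s ζ = ζ ^ k := by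
  have h1 := Complex.isPrimitiveRoot_exp n hn.ne'
  have : NeZero n := ⟨hn.ne'⟩
  have h2 : IsPrimitiveRoot (s (Complex.exp (2 * Real.pi * Complex.I / n))) n :=
    h1.map_of_injective s.injective
  obtain ⟨i, hi, hc, he⟩ := h1.isPrimitiveRoot_iff.mp h2
  refine ⟨i, hc, fun ζ hζ => ?_⟩
  obtain ⟨j, -, rfl⟩ := h1.eq_pow_of_pow_eq_one hζ
  rw [map_pow, ← he, ← pow_mul, ← pow_mul, mul_comm i j]

theorem nonunits_sub {O : ValuationSubring ℂ} {a b : ℂ} (ha : a ∈ O.nonunits)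
    (hb : b ∈ O.nonunits) : a - b ∈ O.nonunits := by
  rw [ValuationSubring.mem_nonunits_iff] at ha hb ⊢
  exact lt_of_le_of_lt (O.valuation.map_sub a b) (max_lt ha hb)

theorem nonunits_zero {O : ValuationSubring ℂ} : (0 : ℂ) ∈ O.nonunits := by
  rw [ValuationSubring.mem_nonunits_iff, map_zero]
  exact zero_lt_one

section

variable {Γ : Type} [Group Γ] [Fintype Γ]

theorem sval {H : Subgroup Γ} (s : ℂ ≃+* ℂ) (k : ℕ)
    (hk : ∀ ζ : ℂ, ζ ^ Nat.card Γ = 1 → s ζ = ζ ^ k) {ψ : H → ℂ} (hψ : IsIrr ψ) (y : H) :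
    s (ψ y) = ψ (y ^ k) := by
  have : Fintype H := Fintype.ofFinite _
  apply Pool.Agent.Q17.TC.gal_char hk hψ
  apply Subtype.ext
  rw [Subgroup.coe_pow, pow_card_eq_one', Subgroup.coe_one]

theorem commS {H : Subgroup Γ} (s t : ℂ ≃+* ℂ) {ψ : H → ℂ} (hψ : IsIrr ψ) (g : H) :
    s (t (ψ g)) = t (s (ψ g)) := by
  obtain ⟨k, _, hk⟩ := exists_expo s (Nat.card Γ) Nat.card_pos
  obtain ⟨l, _, hl⟩ := exists_expo t (Nat.card Γ) Nat.card_pos
  rw [sval t l hl hψ, sval s k hk hψ, sval s k hk hψ, sval t l hl hψ, ← pow_mul, ← pow_mul, mul_comm]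

theorem irr_of_block {O : ValuationSubring ℂ} {B : Set (Γ → ℂ)} (hB : IsBlock O B) {χ : Γ → ℂ}
    (hχ : χ ∈ B) : IsIrr χ := by
  obtain ⟨χ₀, _, rfl⟩ := hB
  exact hχ.1

theorem mp_symm {s : ℂ ≃+* ℂ} {B B' : Set (Γ → ℂ)} (h : Mp s B B') : Mp s.symm B' B := by
  intro χ
  rw [h]
  have : (fun g => s ((fun g => s.symm (χ g)) g)) = χ := by
    funext g
    exact s.apply_symm_apply _
  rw [this]

theorem ind_gal (O : ValuationSubring ℂ) (s : ℂ ≃+* ℂ) (B B' : Set (Γ → ℂ)) (hB : IsBlock O B)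
    (H : Subgroup Γ) (hs : Mp s B B') (ψ : H → ℂ) (hψ : IsIrr ψ)
    (hi : Ind O B Set.univ H ψ) : Ind O B' Set.univ H (fun g => s (ψ g)) := by
  obtain ⟨k, hkc, hk⟩ := exists_expo s (Nat.card Γ) Nat.card_pos
  obtain ⟨k', hk'c, h1, h2⟩ := Pool.Agent.Q261.RB.inv_exp (G := Γ) k hkc
  intro χ' hχ' x _
  set χ : Γ → ℂ := fun g => s.symm (χ' g) with hχ
  have hχs : (fun g => s (χ g)) = χ' := by
    funext g
    exact s.apply_symm_apply _
  have hχB : χ ∈ B := by
    rw [hs, hχs]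
    exact hχ'
  have hirr := irr_of_block hB hχB
  have e1 : χ' = fun g => χ (g ^ k) := by
    rw [← hχs]
    funext g
    exact Pool.Agent.Q17.TC.gal_char hk hirr pow_card_eq_one'
  have e2 := Pool.Agent.Q261.RB.omega_pow k k' h1 h2 χ x
  rw [e1, e2]
  have h3 := hi χ hχB (x ^ k) (Set.mem_univ _)
  let e : {y : H // IsConj x (y : Γ)} ≃ {y : H // IsConj (x ^ k) (y : Γ)} :=
    { toFun := fun y => ⟨y.1 ^ k, by
        rw [Subgroup.coe_pow]
        exact Pool.Agent.Q261.RB.isConj_pow k y.2⟩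
      invFun := fun y => ⟨y.1 ^ k', by
        have h := Pool.Agent.Q261.RB.isConj_pow k' y.2
        rw [h1] at h
        rw [Subgroup.coe_pow]
        exact h⟩
      left_inv := fun y => Subtype.ext (Subtype.ext (by
        simp only [Subgroup.coe_pow]
        exact h1 _))
      right_inv := fun y => Subtype.ext (Subtype.ext (by
        simp only [Subgroup.coe_pow]
        exact h2 _)) }
  have h4 : (∑ᶠ y : {y : H // IsConj x (y : Γ)}, (fun g => s (ψ g)) y / (fun g => s (ψ g)) 1) =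
      ∑ᶠ y : {y : H // IsConj (x ^ k) (y : Γ)}, ψ y / ψ 1 := by
    refine finsum_eq_of_bijective e e.bijective fun y => ?_
    change s (ψ y.1) / s (ψ 1) = ψ (y.1 ^ k) / ψ 1
    rw [sval s k hk hψ, sval s k hk hψ, one_pow]
  rw [h4]
  exact h3

theorem block_eq (O : ValuationSubring ℂ) (B B' : Set (Γ → ℂ)) (hB : IsBlock O B)
    (hB' : IsBlock O B') (H : Subgroup Γ) (ψ : H → ℂ) (hi : Ind O B Set.univ H ψ)
    (hi' : Ind O B' Set.univ H ψ) : B = B' := by
  obtain ⟨χ₀, h0, rfl⟩ := hB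
  obtain ⟨χ₁, h1, rfl⟩ := hB'
  have a0 := hi χ₀ ⟨h0, fun x => by rw [sub_self]; exact nonunits_zero⟩
  have a1 := hi' χ₁ ⟨h1, fun x => by rw [sub_self]; exact nonunits_zero⟩
  have h2 : ∀ x, omega χ₀ x - omega χ₁ x ∈ O.nonunits := by
    intro x
    have := nonunits_sub (a0 x (Set.mem_univ _)) (a1 x (Set.mem_univ _))
    rwa [sub_sub_sub_cancel_right] at this
  ext χ
  constructor
  · rintro ⟨h3, h4⟩
    refine ⟨h3, fun x => ?_⟩
    have h5 : omega χ x - omega χ₁ x = (omega χ x - omega χ₀ x) - (0 - (omega χ₀ x - omega χ₁ x)) := by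
      ring
    rw [h5]
    exact nonunits_sub (h4 x) (nonunits_sub nonunits_zero (h2 x))
  · rintro ⟨h3, h4⟩
    refine ⟨h3, fun x => ?_⟩
    have h5 : omega χ x - omega χ₀ x = (omega χ x - omega χ₁ x) - (omega χ₀ x - omega χ₁ x) := by
      ring
    rw [h5]
    exact nonunits_sub (h4 x) (h2 x)

end

/-- JOB GCK -/
theorem t_GCK : S_GCK := by
  intro Γ _ _ O s B B' hB hB' H
  refine ⟨fun hs ψ hψ hi => ind_gal O s B B' hB H hs ψ hψ hi,
    fun ψ _ hi hi' => block_eq O B B' hB hB' H ψ hi hi', ?_, ?_⟩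
  · intro hs ψ hψ hfix hi
    have h1 := ind_gal O s B B' hB H hs ψ hψ hi
    have h2 : (fun g => s (ψ g)) = ψ := funext hfix
    rw [h2] at h1
    exact block_eq O B B' hB hB' H ψ hi h1
  · intro hs K
    have : Fintype H := Fintype.ofFinite _
    unfold ck
    refine Nat.card_congr
      { toFun := fun ψ => ⟨fun g => s (ψ.1 g), Pool.Agent.Q17.TC.irr_gal s ψ.2.1,
          ind_gal O s B B' hB H hs ψ.1 ψ.2.1 ψ.2.2.1, fun t ht g => by
            change t (s (ψ.1 g)) = s (ψ.1 g)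
            rw [← commS s t ψ.2.1, ψ.2.2.2 t ht]⟩
        invFun := fun ψ => ⟨fun g => s.symm (ψ.1 g), Pool.Agent.Q17.TC.irr_gal s.symm ψ.2.1,
          ind_gal O s.symm B' B hB' H (mp_symm hs) ψ.1 ψ.2.1 ψ.2.2.1, fun t ht g => by
            change t (s.symm (ψ.1 g)) = s.symm (ψ.1 g)
            rw [← commS s.symm t ψ.2.1, ψ.2.2.2 t ht]⟩
        left_inv := fun ψ => Subtype.ext (funext fun g => s.symm_apply_apply _)
        right_inv := fun ψ => Subtype.ext (funext fun g => s.apply_symm_apply _) }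

end Pool.Agent.Q96.RR
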