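import Mathlib

/-!
# Linear algebra for job UNI of project RR (helper96)
-/

set_option autoImplicit false
set_option linter.unusedSectionVars false

open scoped Classical

noncomputable section

namespace Pool.Agent.Q96.RR

open Finset

/-- the orbit of `x` under translations -/
def Orb {A X : Type} [Group A] (x : A → X) : Set (A → X) := {y | ∃ a : A, ∀ ω, y ω = x (a * ω)}

section

variable {A X : Type} [Group A]

theorem orb_self (x : A → X) : x ∈ Orb x := ⟨1, fun ω => by rw [one_mul]⟩

theorem orb_symm {x y : A → X} (h : y ∈ Orb x) : x ∈ Orb y := by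
  obtain ⟨a, ha⟩ := h
  exact ⟨a⁻¹, fun ω => by rw [ha, mul_inv_cancel_left]⟩

theorem orb_trans {x y z : A → X} (h : y ∈ Orb x) (h' : z ∈ Orb y) : z ∈ Orb x := by
  obtain ⟨a, ha⟩ := h
  obtain ⟨b, hb⟩ := h'
  exact ⟨a * b, fun ω => by rw [hb, ha, mul_assoc]⟩

/-- the orbit relation -/
def orbS (A X : Type) [Group A] : Setoid (A → X) where
  r := fun x y => y ∈ Orb x
  iseqv := ⟨orb_self, orb_symm, orb_trans⟩

variable [Fintype A] [DecidableEq A] [Fintype X] {k : Type} [Field k]

/-- the sum of a translation invariant function times a function with vanishing sums over the orbits -/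
theorem sum_inv (D : (A → X) → k) (hD : ∀ x : A → X, ∑ y ∈ univ.filter (· ∈ Orb x), D y = 0)
    (U : (A → X) → k) (hU : ∀ (a : A) (y : A → X), U (fun ω => y (a * ω)) = U y) :
    ∑ y, U y * D y = 0 := by
  have hfin : Fintype (Quotient (orbS A X)) := Fintype.ofFinite _
  rw [← Finset.sum_fiberwise univ (fun y => Quotient.mk (orbS A X) y)]
  apply Finset.sum_eq_zero
  intro o _
  induction o using Quotient.inductionOn with
  | _ x =>
    have h1 : univ.filter (fun y => Quotient.mk (orbS A X) y = Quotient.mk (orbS A X) x) =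
        univ.filter (· ∈ Orb x) := by
      ext y
      simp only [mem_filter, mem_univ, true_and]
      constructor
      · intro h
        exact orb_symm (Quotient.exact h)
      · intro h
        exact Quotient.sound (orb_symm h)
    rw [h1]
    have h2 : ∀ y ∈ univ.filter (· ∈ Orb x), U y * D y = U x * D y := by
      intro y hy
      simp only [mem_filter, mem_univ, true_and] at hy
      obtain ⟨a, ha⟩ := hy
      have : y = fun ω => x (a * ω) := funext ha
      rw [this, hU]
    rw [Finset.sum_congr rfl h2, ← Finset.mul_sum, hD, mul_zero]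

theorem prod_pair (w V : A → X → k) :
    ∑ y : A → X, (∏ ω, w ω (y ω)) * ∏ ω, V ω (y ω) = ∏ ω, ∑ x, w ω x * V ω x := by
  rw [Finset.prod_univ_sum, Fintype.piFinset_univ]
  refine Finset.sum_congr rfl fun y _ => ?_
  rw [Finset.prod_mul_distrib]

/-- the main step -/
theorem lin [Infinite k] (V L : A → X → k) (e : X) (hV : ∀ ω, V ω e = 1) (hL : ∀ ω, L ω e = 1)
    (E : A → X → k) (hE : ∀ ω ω', ∑ x, E ω x * L ω' x = if ω = ω' then 1 else 0)
    (h : ∀ x : A → X, ∑ y ∈ univ.filter (· ∈ Orb x), (∏ ω, V ω (y ω)) =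
      ∑ y ∈ univ.filter (· ∈ Orb x), ∏ ω, L ω (y ω)) : ∃ a, ∀ ω, V ω = L (a * ω) := by
  have hD : ∀ x : A → X, ∑ y ∈ univ.filter (· ∈ Orb x), ((∏ ω, V ω (y ω)) - ∏ ω, L ω (y ω)) = 0 := by
    intro x
    rw [Finset.sum_sub_distrib, h x, sub_self]
  have hinv : ∀ U : (A → X) → k, (∀ (a : A) (y : A → X), U (fun ω => y (a * ω)) = U y) →
      ∑ y, U y * (∏ ω, V ω (y ω)) = ∑ y, U y * ∏ ω, L ω (y ω) := by
    intro U hU
    have h1 := sum_inv _ hD U hU
    simp only [mul_sub, Finset.sum_sub_distrib] at h1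
    exact sub_eq_zero.mp h1
  -- products of one vector
  have h1 : ∀ w : X → k, ∏ ω, ∑ x, w x * V ω x = ∏ ω, ∑ x, w x * L ω x := by
    intro w
    rw [← prod_pair (fun _ => w) V, ← prod_pair (fun _ => w) L]
    apply hinv
    intro a y
    exact Fintype.prod_equiv (Equiv.mulLeft a) _ _ fun ω => rfl
  have h2 : ∀ (ω : A) (w : X → k), ∃ ω', ∑ x, w x * V ω x = ∑ x, w x * L ω' x := by
    intro ω w
    set c := ∑ x, w x * V ω x with hc
    have h3 := h1 (fun x => w x - if x = e then c else 0)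
    have h4 : ∀ Z : X → k, Z e = 1 → ∑ x, (w x - if x = e then c else 0) * Z x =
        ∑ x, w x * Z x - c := by
      intro Z hZ
      simp only [sub_mul, ite_mul, zero_mul, Finset.sum_sub_distrib]
      rw [Finset.sum_ite_eq' univ e, if_pos (mem_univ _), hZ, mul_one]
    rw [Finset.prod_congr rfl fun ω _ => h4 (V ω) (hV ω),
      Finset.prod_congr rfl fun ω _ => h4 (L ω) (hL ω)] at h3
    rw [Finset.prod_eq_zero (mem_univ ω) (sub_self _)] at h3
    obtain ⟨ω', _, h5⟩ := Finset.prod_eq_zero_iff.mp h3.symm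
    exact ⟨ω', (sub_eq_zero.mp h5).symm⟩
  have h3 : ∀ ω, ∃ ω', V ω = L ω' := by
    intro ω
    let F : A → (X → k) →ₗ[k] k := fun ω' =>
      { toFun := fun w => ∑ x, w x * (V ω x - L ω' x)
        map_add' := by
          intro w w'
          simp only [Pi.add_apply, add_mul, Finset.sum_add_distrib]
        map_smul' := by
          intro c w
          simp only [Pi.smul_apply, smul_eq_mul, RingHom.id_apply, Finset.mul_sum, mul_assoc] }
    have h4 : ⋃ ω', (LinearMap.ker (F ω') : Set (X → k)) = Set.univ := by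
      rw [Set.eq_univ_iff_forall]
      intro w
      obtain ⟨ω', hω'⟩ := h2 ω w
      refine Set.mem_iUnion.mpr ⟨ω', ?_⟩
      change F ω' w = 0
      change ∑ x, w x * (V ω x - L ω' x) = 0
      simp only [mul_sub, Finset.sum_sub_distrib]
      rw [hω', sub_self]
    obtain ⟨ω', hω'⟩ := Subspace.exists_eq_top_of_iUnion_eq_univ h4
    refine ⟨ω', funext fun x => ?_⟩
    have h5 : F ω' (Pi.single x 1) = 0 := by
      rw [← LinearMap.mem_ker, hω']
      exact Submodule.mem_top
    change ∑ z, (Pi.single x 1 : X → k) z * (V ω z - L ω' z) = 0 at h5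
    rw [Finset.sum_eq_single_of_mem x (mem_univ x) (fun z _ hz => by
      rw [Pi.single_eq_of_ne hz, zero_mul]), Pi.single_eq_same, one_mul] at h5
    exact sub_eq_zero.mp h5
  choose π hπ using h3
  have h4 := hinv (fun y => ∑ b : A, ∏ ω, E (b * ω) (y ω)) (by
    intro a y
    refine Fintype.sum_equiv (Equiv.mulRight a⁻¹) _ _ fun b => ?_
    refine Fintype.prod_equiv (Equiv.mulLeft a) _ _ fun ω => ?_
    simp only [Equiv.coe_mulRight, Equiv.coe_mulLeft]
    rw [mul_assoc, inv_mul_cancel_left])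
  simp only [Finset.sum_mul] at h4
  rw [Finset.sum_comm, Finset.sum_comm (s := univ (α := A → X))] at h4
  simp only [prod_pair] at h4
  have h5 : ∑ b : A, ∏ ω, ∑ x, E (b * ω) x * L ω x = 1 := by
    rw [Finset.sum_eq_single_of_mem 1 (mem_univ _)]
    · refine Finset.prod_eq_one fun ω _ => ?_
      rw [one_mul, hE, if_pos rfl]
    · intro b _ hb
      refine Finset.prod_eq_zero (mem_univ 1) ?_
      rw [hE, mul_one, if_neg hb]
  rw [h5] at h4
  have h6 : ∃ b : A, ∏ ω, ∑ x, E (b * ω) x * V ω x ≠ 0 := by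
    by_contra hcon
    push Not at hcon
    rw [Finset.sum_eq_zero fun b _ => hcon b] at h4
    exact zero_ne_one h4
  obtain ⟨b, hb⟩ := h6
  refine ⟨b, fun ω => ?_⟩
  have h7 := Finset.prod_ne_zero_iff.mp hb ω (mem_univ _)
  rw [hπ ω, hE] at h7
  have h8 : b * ω = π ω := by
    by_contra hne
    rw [if_neg hne] at h7
    exact h7 rfl
  rw [h8]
  exact hπ ω

/-- the easy direction -/
theorem lin_conv (V L : A → X → k) (a : A) (h : ∀ ω, V ω = L (a * ω)) (x : A → X) :
    ∑ y ∈ univ.filter (· ∈ Orb x), (∏ ω, V ω (y ω)) =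
      ∑ y ∈ univ.filter (· ∈ Orb x), ∏ ω, L ω (y ω) := by
  refine Finset.sum_bij' (fun y _ => fun ω => y (a⁻¹ * ω)) (fun y _ => fun ω => y (a * ω)) ?_ ?_ ?_ ?_ ?_
  · intro y hy
    simp only [mem_filter, mem_univ, true_and] at hy ⊢
    exact orb_trans hy ⟨a⁻¹, fun ω => rfl⟩
  · intro y hy
    simp only [mem_filter, mem_univ, true_and] at hy ⊢
    exact orb_trans hy ⟨a, fun ω => rfl⟩
  · intro y _
    funext ω
    change y (a⁻¹ * (a * ω)) = y ω
    rw [inv_mul_cancel_left]
  · intro y _
    funext ω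
    change y (a * (a⁻¹ * ω)) = y ω
    rw [mul_inv_cancel_left]
  · intro y _
    refine Fintype.prod_equiv (Equiv.mulLeft a) _ _ fun ω => ?_
    simp only [Equiv.coe_mulLeft]
    rw [h, inv_mul_cancel_left]

end

end Pool.Agent.Q96.RR
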