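import Pool.Agent.Q17.RR.Stm
import Pool.Agent.Q96.RR.Lin
import Pool.Agent.Q96.RR.GCK

/-!
# Job UNI of project RR (helper96, for helper17): product characters
-/

set_option autoImplicit false
set_option linter.unusedSectionVars false

open scoped Classical

noncomputable section

namespace Pool.Agent.Q96.RR

open Finset
open Pool.Agent.H254R3.IN hiding NN
open Pool.Agent.Q17.RR Pool.Agent.Q17.RB Pool.Agent.Q17.AM Pool.Agent.Q17.WR

/-- the residue field is infinite -/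
theorem residue_infinite (O : ValuationSubring ℂ) : Infinite (RF O) := by
  have h : IsAlgClosed (RF O) := by
    refine IsAlgClosed.of_exists_root _ ?_
    intro p hp hirr
    have hl : p ∈ Polynomial.lifts (IsLocalRing.residue O) := by
      rw [Polynomial.lifts_iff_coeff_lifts]
      intro n
      exact IsLocalRing.residue_surjective (p.coeff n)
    obtain ⟨q, hq, hdeg, hmon⟩ := Polynomial.lifts_and_degree_eq_and_monic hl hp
    have hd : (q.map (algebraMap O ℂ)).degree ≠ 0 := by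
      rw [hmon.degree_map, hdeg]
      exact hirr.degree_pos.ne'
    obtain ⟨x, hx⟩ := IsAlgClosed.exists_root (q.map (algebraMap O ℂ)) hd
    have hint : IsIntegral O x := by
      refine ⟨q, hmon, ?_⟩
      rw [← Polynomial.eval_map]
      exact hx
    obtain ⟨y, hy⟩ := IsIntegrallyClosed.isIntegral_iff.mp hint
    refine ⟨IsLocalRing.residue O y, ?_⟩
    have h0 : Polynomial.eval y q = 0 := by
      apply IsFractionRing.injective O ℂ
      rw [map_zero, ← hx, ← hy, Polynomial.eval_map, Polynomial.eval₂_hom]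
    rw [← hq, Polynomial.eval_map, Polynomial.eval₂_hom, h0, map_zero]
  exact IsAlgClosed.instInfinite

section

variable {G : Type} [Group G] [Fintype G] {O : ValuationSubring ℂ}

/-- the sum over the elements of `H` in the class of `x` -/
def vo (H : Subgroup G) (ψ : H → ℂ) (x : G) : ℂ := ∑ᶠ y : {y : H // IsConj x (y : G)}, ψ y / ψ 1

theorem vo_eq (H : Subgroup G) (ψ : H → ℂ) (x : G) :
    vo H ψ x = ∑ y ∈ univ.filter (fun y : H => IsConj x (y : G)), ψ y / ψ 1 := by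
  rw [vo, finsum_eq_sum_of_fintype]
  exact (Finset.sum_subtype (univ.filter (fun y : H => IsConj x (y : G)))
    (p := fun y : H => IsConj x (y : G)) (fun y => by simp) (fun y => ψ y / ψ 1)).symm

theorem vo_Om (H : Subgroup G) (ψ : H → ℂ) (x : G) :
    vo H ψ x = Om (fun y : H => if IsConj x (y : G) then 1 else 0) ψ := by
  rw [vo_eq, Om, Finset.sum_filter, Finset.sum_div]
  refine Finset.sum_congr rfl fun y _ => ?_
  split_ifs <;> simp

theorem vo_mem {H : Subgroup G} {ψ : H → ℂ} (hψ : IsIrr ψ) (x : G) : vo H ψ x ∈ O := by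
  rw [vo_Om]
  refine (red_Om hψ (fun g y => ?_) (fun g => ?_)).1
  · have : IsConj x ((y * g * y⁻¹ : H) : G) ↔ IsConj x (g : G) := by
      have h2 : IsConj (g : G) ((y * g * y⁻¹ : H) : G) := isConj_iff.mpr ⟨y, rfl⟩
      exact ⟨fun h => h.trans h2.symm, fun h => h.trans h2⟩
    simp only [this]
  · split_ifs
    · exact O.one_mem
    · exact O.zero_mem

theorem vo_congr (H : Subgroup G) (ψ : H → ℂ) {x x' : G} (h : IsConj x x') : vo H ψ x = vo H ψ x' := by
  rw [vo_eq, vo_eq]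
  refine Finset.sum_congr ?_ fun _ _ => rfl
  ext y
  simp only [mem_filter, mem_univ, true_and]
  exact ⟨fun h1 => h.symm.trans h1, fun h1 => h.trans h1⟩

theorem vo_one {H : Subgroup G} {ψ : H → ℂ} (hψ : IsIrr ψ) : vo H ψ 1 = 1 := by
  rw [vo_eq]
  have h1 : univ.filter (fun y : H => IsConj (1 : G) (y : G)) = {1} := by
    ext y
    simp only [mem_filter, mem_univ, true_and, mem_singleton]
    constructor
    · intro h
      exact Subtype.ext (isConj_one_right.mp h)
    · rintro rfl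
      exact IsConj.refl _
  rw [h1, Finset.sum_singleton]
  exact div_self hψ.one_ne

theorem omega_one {χ : G → ℂ} (hχ : IsIrr χ) : omega χ 1 = 1 := by
  have h1 : Unique {y : G // IsConj 1 y} :=
    { default := ⟨1, IsConj.refl _⟩
      uniq := fun y => Subtype.ext (isConj_one_right.mp y.2) }
  rw [omega, Nat.card_unique, Nat.cast_one, one_mul]
  exact div_self hχ.one_ne

/-- `Ind` for a block in terms of residues -/
theorem ind_iff {B : Set (G → ℂ)} (hB : IsBlock O B) {χ : G → ℂ} (hχ : χ ∈ B) {H : Subgroup G}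
    {ψ : H → ℂ} (hψ : IsIrr ψ) : Ind O B Set.univ H ψ ↔
      ∀ K : ConjClasses G, red O (vo H ψ (rep K)) = red O (omega χ (rep K)) := by
  constructor
  · intro h K
    exact ((red_eq_iff ((hB.irr χ hχ).omega_mem O _) (vo_mem hψ _)).mpr
      (h χ hχ (rep K) (Set.mem_univ _))).symm
  · intro h χ' hχ' x _
    change omega χ' x - vo H ψ x ∈ O.nonunits
    rw [← red_eq_iff ((hB.irr χ' hχ').omega_mem O _) (vo_mem hψ _), hB.red_eq hχ' hχ]
    have h1 := rep_mk x
    rw [← (hB.irr χ hχ).omega_congr h1, ← vo_congr H ψ h1]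
    exact (h _).symm

end

theorem finsum_sub {α : Type} [Fintype α] (p : α → Prop) (F : α → ℂ) :
    ∑ᶠ y : {y : α // p y}, F y = ∑ y ∈ univ.filter p, F y := by
  rw [finsum_eq_sum_of_fintype]
  exact (Finset.sum_subtype (univ.filter p) (p := p) (fun y => by simp) F).symm

/-- sums over products of finite types -/
theorem fub {A : Type} [Fintype A] [DecidableEq A] {X : Type} [Fintype X] (T : A → Type) [∀ ω, Fintype (T ω)]
    (τ : ∀ ω, T ω → X) (F : ∀ ω, T ω → ℂ) (S : Set (A → X)) :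
    ∑ y ∈ univ.filter (fun y : (∀ ω, T ω) => (fun ω => τ ω (y ω)) ∈ S), ∏ ω, F ω (y ω) =
      ∑ P ∈ univ.filter (· ∈ S), ∏ ω, ∑ t ∈ univ.filter (fun t : T ω => τ ω t = P ω), F ω t := by
  have h1 : ∀ P ∈ univ.filter (· ∈ S), ∏ ω, ∑ t ∈ univ.filter (fun t : T ω => τ ω t = P ω), F ω t =
      ∑ y : (∀ ω, T ω), if (fun ω => τ ω (y ω)) = P then ∏ ω, F ω (y ω) else 0 := by
    intro P _
    simp only [Finset.sum_filter]
    rw [Finset.prod_univ_sum, Fintype.piFinset_univ]
    refine Finset.sum_congr rfl fun y _ => ?_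
    split_ifs with h
    · refine Finset.prod_congr rfl fun ω _ => ?_
      rw [if_pos (congrFun h ω)]
    · rw [funext_iff] at h
      push Not at h
      obtain ⟨ω, hω⟩ := h
      exact Finset.prod_eq_zero (mem_univ ω) (if_neg hω)
  rw [Finset.sum_congr rfl h1, Finset.sum_comm, Finset.sum_filter]
  refine Finset.sum_congr rfl fun y _ => ?_
  rw [Finset.sum_ite_eq]
  simp only [mem_filter, mem_univ, true_and]

section

variable {G : Type} [Group G] [Fintype G] {q : ℕ} [Fact q.Prime]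

/-- conjugacy of elements of the base group -/
theorem conj_base (x : Wc G q) (hx : x.right = 1) (z : Wc G q) (hz : z.right = 1) :
    IsConj x z ↔ (fun ω => ConjClasses.mk (z.left ω)) ∈ Orb (fun ω => ConjClasses.mk (x.left ω)) := by
  constructor
  · rintro h
    obtain ⟨c, hc⟩ := isConj_iff.mp h
    have h1 : c * x = z * c := by
      rw [← hc]
      group
    refine ⟨c.right⁻¹, fun ω => ?_⟩
    have h2 := congrArg (fun w : Wc G q => w.left ω) h1
    have e1 : (c * x).left ω = c.left ω * x.left (c.right⁻¹ * ω) := rfl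
    have e2 : (z * c).left ω = z.left ω * c.left (z.right⁻¹ * ω) := rfl
    simp only [e1, e2, hz, inv_one, one_mul] at h2
    rw [ConjClasses.mk_eq_mk_iff_isConj]
    refine (isConj_iff.mpr ⟨c.left ω, ?_⟩).symm
    rw [h2]
    group
  · rintro ⟨a, ha⟩
    have h1 : ∀ ω, ∃ g : G, g * x.left (a * ω) * g⁻¹ = z.left ω := by
      intro ω
      have := ha ω
      rw [ConjClasses.mk_eq_mk_iff_isConj] at this
      exact isConj_iff.mp this.symm
    choose g hg using h1
    refine isConj_iff.mpr ⟨⟨g, a⁻¹⟩, ?_⟩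
    rw [mul_inv_eq_iff_eq_mul]
    refine SemidirectProduct.ext (funext fun ω => ?_) ?_
    · change g ω * x.left ((a⁻¹)⁻¹ * ω) = z.left ω * g (z.right⁻¹ * ω)
      rw [inv_inv, hz, inv_one, one_mul, ← hg ω]
      group
    · change a⁻¹ * x.right = z.right * a⁻¹
      rw [hx, hz, mul_one, one_mul]

/-- the sums over the base group -/
theorem sum_base (f : Cy q → G → ℂ) (hf : ∀ ω, IsIrr (f ω)) (x : Wc G q) (hx : x.right = 1) :
    ∑ᶠ y : {y : Cy q → G // IsConj x (⟨y, 1⟩ : Wc G q)}, prf f y.1 / prf f 1 =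
      ∑ P ∈ univ.filter (· ∈ Orb (fun ω => ConjClasses.mk (x.left ω))),
        ∏ ω, omega (f ω) (rep (P ω)) := by
  rw [finsum_sub (fun y : Cy q → G => IsConj x (⟨y, 1⟩ : Wc G q)) (fun y => prf f y / prf f 1)]
  have h1 : ∀ y : Cy q → G, prf f y / prf f 1 = ∏ ω, f ω (y ω) / f ω 1 := by
    intro y
    rw [Finset.prod_div_distrib]
    rfl
  have h2 := fub (fun _ : Cy q => G) (fun _ => ConjClasses.mk) (fun ω g => f ω g / f ω 1)
    (Orb (fun ω => ConjClasses.mk (x.left ω)))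
  have h3 : univ.filter (fun y : Cy q → G => IsConj x (⟨y, 1⟩ : Wc G q)) =
      univ.filter (fun y : Cy q → G => (fun ω => ConjClasses.mk (y ω)) ∈
        Orb (fun ω => ConjClasses.mk (x.left ω))) := by
    ext y
    simp only [mem_filter, mem_univ, true_and]
    exact conj_base x hx ⟨y, 1⟩ rfl
  rw [h3, Finset.sum_congr rfl fun y _ => h1 y]
  refine h2.trans ?_
  refine Finset.sum_congr rfl fun P _ => Finset.prod_congr rfl fun ω _ => ?_
  rw [← Finset.sum_div, omega]
  congr 1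
  simp only [mk_eq_iff]
  rw [Finset.sum_congr rfl (g := fun _ => f ω (rep (P ω)))
    (fun y hy => ((hf ω).isConj (Finset.mem_filter.mp hy).2).symm), Finset.sum_const, nsmul_eq_mul,
    Nat.card_eq_fintype_card, Fintype.card_subtype]

/-- the product of the subgroups as a product of groups -/
def ePw (H : Cy q → Subgroup G) : Pw H ≃ (∀ ω, H ω) where
  toFun x ω := ⟨x.1.left ω, x.2.2 ω⟩
  invFun m := ⟨⟨fun ω => (m ω : G), 1⟩, rfl, fun ω => (m ω).2⟩
  left_inv x := Subtype.ext (SemidirectProduct.ext rfl x.2.1.symm)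
  right_inv _ := rfl

/-- the sums over `Pw H` -/
theorem sum_pw (H : Cy q → Subgroup G) (ψ : ∀ ω, H ω → ℂ) (x : Wc G q) (hx : x.right = 1) :
    ∑ᶠ y : {y : Pw H // IsConj x (y : Wc G q)},
      (∏ ω, ψ ω ⟨((y : Pw H) : Wc G q).left ω, (y : Pw H).2.2 ω⟩) /
        (∏ ω, ψ ω ⟨((1 : Pw H) : Wc G q).left ω, (1 : Pw H).2.2 ω⟩) =
      ∑ P ∈ univ.filter (· ∈ Orb (fun ω => ConjClasses.mk (x.left ω))),
        ∏ ω, vo (H ω) (ψ ω) (rep (P ω)) := by
  have hfin0 : Finite (Pw H) := Finite.of_equiv _ (ePw H).symm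
  have hfin : Fintype (Pw H) := Fintype.ofFinite _
  rw [finsum_sub (fun y : Pw H => IsConj x (y : Wc G q)) (fun y => (∏ ω, ψ ω ⟨(y : Wc G q).left ω,
    y.2.2 ω⟩) / (∏ ω, ψ ω ⟨((1 : Pw H) : Wc G q).left ω, (1 : Pw H).2.2 ω⟩))]
  have h1 : ∑ y ∈ univ.filter (fun y : Pw H => IsConj x (y : Wc G q)),
      (∏ ω, ψ ω ⟨(y : Wc G q).left ω, y.2.2 ω⟩) /
        (∏ ω, ψ ω ⟨((1 : Pw H) : Wc G q).left ω, (1 : Pw H).2.2 ω⟩) =
      ∑ z ∈ univ.filter (fun z : (∀ ω, H ω) => (fun ω => ConjClasses.mk ((z ω : H ω) : G)) ∈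
        Orb (fun ω => ConjClasses.mk (x.left ω))), ∏ ω, ψ ω (z ω) / ψ ω 1 := by
    refine Finset.sum_equiv (ePw H) ?_ ?_
    · intro y
      simp only [mem_filter, mem_univ, true_and]
      exact conj_base x hx y y.2.1
    · intro y _
      rw [Finset.prod_div_distrib]
      rfl
  rw [h1]
  have h2 := fub (fun ω : Cy q => H ω) (fun ω h => ConjClasses.mk (h : G))
    (fun ω h => ψ ω h / ψ ω 1) (Orb (fun ω => ConjClasses.mk (x.left ω)))
  refine h2.trans ?_
  refine Finset.sum_congr rfl fun P _ => Finset.prod_congr rfl fun ω _ => ?_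
  rw [vo_eq]
  simp only [mk_eq_iff]

theorem prod_mem' {ι : Type} [Fintype ι] {O : ValuationSubring ℂ} {F : ι → ℂ} (h : ∀ i, F i ∈ O) :
    ∏ i, F i ∈ O := prod_mem fun i _ => h i

theorem red_prod {ι : Type} [Fintype ι] {O : ValuationSubring ℂ} {F : ι → ℂ} (h : ∀ i, F i ∈ O) :
    red O (∏ i, F i) = ∏ i, red O (F i) := by
  have h1 : ∀ s : Finset ι, red O (∏ i ∈ s, F i) = ∏ i ∈ s, red O (F i) := by
    intro s
    induction s using Finset.induction_on with
    | empty => simpa using red_one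
    | insert a s ha ih =>
      rw [Finset.prod_insert ha, Finset.prod_insert ha,
        red_mul (h a) (prod_mem fun i _ => h i), ih]
  exact h1 univ

/-- `Ind` for `FX β` in terms of residues -/
theorem ind_big {O : ValuationSubring ℂ} {β : Cy q → Set (G → ℂ)} (hβ : ∀ ω, IsBlock O (β ω))
    (hFX : ∀ χ ∈ FX β, ∀ x : Wc G q, x.right = 1 → ∀ f : Cy q → G → ℂ, (∀ ω, f ω ∈ β ω) →
      χ = nca f → omega χ x = ∑ᶠ y : {y : Cy q → G // IsConj x (⟨y, 1⟩ : Wc G q)},
        prf f y.1 / prf f 1)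
    {χ : Cy q → G → ℂ} (hχ : ∀ ω, χ ω ∈ β ω) (H : Cy q → Subgroup G) (ψ : ∀ ω, H ω → ℂ)
    (hψ : ∀ ω, IsIrr (ψ ω)) :
    Ind O (FX β) {x | x.right = 1} (Pw H) (fun x => ∏ ω, ψ ω ⟨(x : Wc G q).left ω, x.2.2 ω⟩) ↔
      ∀ c : Cy q → ConjClasses G, ∑ P ∈ univ.filter (· ∈ Orb c),
        (∏ ω, red O (vo (H ω) (ψ ω) (rep (P ω)))) =
        ∑ P ∈ univ.filter (· ∈ Orb c), ∏ ω, red O (omega (χ ω) (rep (P ω))) := by
  have hirr : ∀ ω, ∀ θ ∈ β ω, IsIrr θ := fun ω => (hβ ω).irr
  have e1 : ∀ c : Cy q → ConjClasses G, ∑ P ∈ univ.filter (· ∈ Orb c),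
      (∏ ω, red O (vo (H ω) (ψ ω) (rep (P ω)))) =
      red O (∑ P ∈ univ.filter (· ∈ Orb c), ∏ ω, vo (H ω) (ψ ω) (rep (P ω))) := by
    intro c
    rw [red_sum _ _ fun P _ => prod_mem' fun ω => vo_mem (hψ ω) _]
    exact Finset.sum_congr rfl fun P _ => (red_prod fun ω => vo_mem (hψ ω) _).symm
  have e2 : ∀ (f : Cy q → G → ℂ), (∀ ω, f ω ∈ β ω) → ∀ c : Cy q → ConjClasses G,
      ∑ P ∈ univ.filter (· ∈ Orb c), (∏ ω, red O (omega (χ ω) (rep (P ω)))) =
      red O (∑ P ∈ univ.filter (· ∈ Orb c), ∏ ω, omega (f ω) (rep (P ω))) := by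
    intro f hf c
    rw [red_sum _ _ fun P _ => prod_mem' fun ω => (hirr ω _ (hf ω)).omega_mem O _]
    refine Finset.sum_congr rfl fun P _ => ?_
    rw [red_prod fun ω => (hirr ω _ (hf ω)).omega_mem O _]
    exact Finset.prod_congr rfl fun ω _ => (hβ ω).red_eq (hχ ω) (hf ω) _
  have m1 : ∀ c : Cy q → ConjClasses G,
      ∑ P ∈ univ.filter (· ∈ Orb c), ∏ ω, vo (H ω) (ψ ω) (rep (P ω)) ∈ O := fun c =>
    sum_mem' _ _ fun P _ => prod_mem' fun ω => vo_mem (hψ ω) _
  have m2 : ∀ (f : Cy q → G → ℂ), (∀ ω, f ω ∈ β ω) → ∀ c : Cy q → ConjClasses G,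
      ∑ P ∈ univ.filter (· ∈ Orb c), ∏ ω, omega (f ω) (rep (P ω)) ∈ O := fun f hf c =>
    sum_mem' _ _ fun P _ => prod_mem' fun ω => (hirr ω _ (hf ω)).omega_mem O _
  constructor
  · intro h c
    rw [e1, e2 χ hχ]
    have h1 := h (nca χ) ⟨χ, hχ, rfl⟩ (⟨fun ω => rep (c ω), 1⟩ : Wc G q) rfl
    rw [hFX _ ⟨χ, hχ, rfl⟩ _ rfl χ hχ rfl, sum_base χ (fun ω => hirr ω _ (hχ ω)) _ rfl,
      sum_pw H ψ _ rfl] at h1
    simp only [mk_rep] at h1
    exact ((red_eq_iff (m2 χ hχ c) (m1 c)).mpr h1).symm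
  · rintro h θ ⟨f, hf, rfl⟩ x hx
    rw [hFX _ ⟨f, hf, rfl⟩ x hx f hf rfl, sum_base f (fun ω => hirr ω _ (hf ω)) x hx,
      sum_pw H ψ x hx]
    rw [← red_eq_iff (m2 f hf _) (m1 _), ← e1, ← e2 f hf]
    exact (h _).symm

end

/-- JOB UNI -/
theorem t_UNI (_hZPR : S_ZPR) (_hFXI : S_FXI) (hFXB : S_FXB) : S_UNI := by
  intro p q _ _ G _ _ O hO D β hF H ψ hψ
  have hirr : ∀ ω, ∀ θ ∈ β ω, IsIrr θ := fun ω => (hF.blk ω).irr
  obtain ⟨_, _, hB3⟩ := hFXB G (Cy q) p O hO β hF.blk hF.inj D hF.dfg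
  choose χ hχ using fun ω => (hF.blk ω).nonempty
  rw [ind_big hF.blk (fun θ hθ => (hB3 θ hθ).2) hχ H ψ hψ]
  have hdis : ∀ ω ω', χ ω' ∈ β ω ↔ ω = ω' := by
    intro ω ω'
    constructor
    · intro h
      apply hF.inj
      obtain ⟨χ₀, h0, e0⟩ := hF.blk ω
      obtain ⟨χ₁, h1, e1⟩ := hF.blk ω'
      have a0 := h
      have a1 := hχ ω'
      rw [e0] at a0 ⊢
      rw [e1] at a1 ⊢
      have h2 : ∀ x, omega χ₀ x - omega χ₁ x ∈ O.nonunits := by
        intro x
        have := nonunits_sub (a1.2 x) (a0.2 x)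
        rwa [sub_sub_sub_cancel_left] at this
      ext θ
      constructor
      · rintro ⟨h3, h4⟩
        refine ⟨h3, fun x => ?_⟩
        have h5 : omega θ x - omega χ₁ x =
            (omega θ x - omega χ₀ x) - (0 - (omega χ₀ x - omega χ₁ x)) := by ring
        rw [h5]
        exact nonunits_sub (h4 x) (nonunits_sub nonunits_zero (h2 x))
      · rintro ⟨h3, h4⟩
        refine ⟨h3, fun x => ?_⟩
        have h5 : omega θ x - omega χ₀ x = (omega θ x - omega χ₁ x) - (omega χ₀ x - omega χ₁ x) := by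
          ring
        rw [h5]
        exact nonunits_sub (h4 x) (h2 x)
    · rintro rfl
      exact hχ ω
  have hinf := residue_infinite O
  constructor
  · intro h
    obtain ⟨a, ha⟩ := lin (fun ω K => red O (vo (H ω) (ψ ω) (rep K)))
      (fun ω K => red O (omega (χ ω) (rep K))) (ConjClasses.mk 1)
      (fun ω => by
        rw [vo_congr (H ω) (ψ ω) (rep_mk (1 : G)), vo_one (hψ ω), red_one])
      (fun ω => by
        rw [(hirr ω _ (hχ ω)).omega_congr (rep_mk (1 : G)), omega_one (hirr ω _ (hχ ω)), red_one])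
      (fun ω K => red O (blockCoeff (β ω) (rep K)))
      (fun ω ω' => by
        have h1 := (red_Om (hirr ω' _ (hχ ω')) (blockCoeff_cl (hirr ω))
          (fun g => blockCoeff_mem (hF.blk ω) g)).2
        rw [Om_blockCoeff (hirr ω) (hirr ω' _ (hχ ω'))] at h1
        rw [← h1]
        simp only [hdis]
        split_ifs
        · exact red_one
        · exact red_zero) h
    refine ⟨a, fun ω => ?_⟩
    rw [ind_iff (hF.blk _) (hχ (a * ω)) (hψ ω)]
    exact fun K => congrFun (ha ω) K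
  · rintro ⟨a, ha⟩ c
    exact lin_conv (fun ω K => red O (vo (H ω) (ψ ω) (rep K)))
      (fun ω K => red O (omega (χ ω) (rep K))) a (fun ω => funext fun K =>
        (ind_iff (hF.blk _) (hχ (a * ω)) (hψ ω)).mp (ha ω) K) c

end Pool.Agent.Q96.RR
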